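import Mathlib

/-!
# Windows with many squarefree congruent numbers (helper88): the numbers `(s ^ 4 - j ^ 4) / (4 W) ^ 2`
-/

set_option autoImplicit false

namespace Pool.Agent.T2h88.BW

/-- `n` is the area of a right triangle with rational sides -/
def IsCongruent (n : ℕ) : Prop :=
  ∃ a b c : ℚ, 0 < a ∧ 0 < b ∧ 0 < c ∧ a ^ 2 + b ^ 2 = c ^ 2 ∧ (n : ℚ) = a * b / 2

theorem congruent_of {s j m n : ℕ} (hm : 0 < m) (hj : 0 < j) (hjs : j < s)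
    (h : s ^ 4 = j ^ 4 + m ^ 2 * n) : IsCongruent n := by
  have hs : 0 < s := hj.trans hjs
  have hmq : (0 : ℚ) < m := by exact_mod_cast hm
  have hjq : (0 : ℚ) < j := by exact_mod_cast hj
  have hsq : (0 : ℚ) < s := by exact_mod_cast hs
  have hq : (s : ℚ) ^ 4 = j ^ 4 + m ^ 2 * n := by exact_mod_cast h
  have hlt : (0 : ℚ) < s ^ 4 - j ^ 4 := by
    have : (j : ℚ) < s := by exact_mod_cast hjs
    have := pow_lt_pow_left₀ this hjq.le (n := 4) (by norm_num)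
    linarith
  refine ⟨(s ^ 4 - j ^ 4) / (m * s * j), 2 * s * j / m, (s ^ 4 + j ^ 4) / (m * s * j), ?_, ?_, ?_,
    ?_, ?_⟩
  · positivity
  · positivity
  · positivity
  · field_simp
    ring
  · have e : (n : ℚ) = (s ^ 4 - j ^ 4) / m ^ 2 := by
      rw [eq_div_iff (by positivity)]
      linarith
    rw [e]
    field_simp

/-- the quotient is an integer in the class of `κ` modulo `W` -/
theorem quot {W κ s j z u : ℤ} (hs : s = 1 + 16 * W ^ 3 * z)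
    (hj : j = 1 + 4 * W ^ 2 * ((W - 1) * κ) + 4 * W ^ 3 * u) :
    ∃ e : ℤ, s ^ 4 - j ^ 4 = (4 * W) ^ 2 * (κ + W * e) := by
  have hj' : j = 1 + 4 * W ^ 2 * ((W - 1) * κ + W * u) := by rw [hj]; ring
  set x := (W - 1) * κ + W * u with hx
  refine ⟨4 * z + 96 * W ^ 3 * z ^ 2 + 1024 * W ^ 6 * z ^ 3 + 4096 * W ^ 9 * z ^ 4 -
    κ - u - (6 * W * x ^ 2 + 16 * W ^ 3 * x ^ 3 + 16 * W ^ 5 * x ^ 4), ?_⟩
  have e1 : s ^ 4 = 1 + (4 * W) ^ 2 * (W * (4 * z + 96 * W ^ 3 * z ^ 2 + 1024 * W ^ 6 * z ^ 3 +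
      4096 * W ^ 9 * z ^ 4)) := by
    rw [hs]; ring
  have e2 : j ^ 4 = 1 + (4 * W) ^ 2 * (x + W * (6 * W * x ^ 2 + 16 * W ^ 3 * x ^ 3 +
      16 * W ^ 5 * x ^ 4)) := by
    rw [hj']; ring
  rw [e1, e2, hx]
  ring

theorem nat_quot {W κ s j n : ℕ} {z u : ℕ} (hW : 0 < W) (hs : s = 1 + 16 * W ^ 3 * z)
    (hj : j ≡ 1 + 4 * W ^ 2 * ((W - 1) * κ) [MOD 4 * W ^ 3]) (hjs : j < s) :
    ∃ n : ℕ, s ^ 4 = j ^ 4 + (4 * W) ^ 2 * n ∧ n ≡ κ [MOD W] ∧ 0 < n := by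
  have hj1 : (j : ℤ) ≡ 1 + 4 * W ^ 2 * (((W : ℤ) - 1) * κ) [ZMOD 4 * W ^ 3] := by
    have := (Int.natCast_modEq_iff.2 hj)
    push_cast [Nat.cast_sub (show 1 ≤ W by omega)] at this
    exact this
  obtain ⟨u, hu⟩ := (Int.modEq_iff_dvd.1 hj1.symm)
  have hj2 : (j : ℤ) = 1 + 4 * (W : ℤ) ^ 2 * (((W : ℤ) - 1) * κ) + 4 * (W : ℤ) ^ 3 * u := by
    linarith
  obtain ⟨e, he⟩ := quot (W := (W : ℤ)) (κ := κ) (s := s) (j := j) (z := z) (u := u)
    (by rw [hs]; push_cast; ring) hj2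
  have hlt : (0 : ℤ) < (s : ℤ) ^ 4 - (j : ℤ) ^ 4 := by
    have h1 : (j : ℤ) < s := by exact_mod_cast hjs
    have := pow_lt_pow_left₀ h1 (by positivity) (n := 4) (by norm_num)
    linarith
  have hWz : (0 : ℤ) < W := by exact_mod_cast hW
  have hpos : 0 < (κ : ℤ) + W * e := by
    by_contra hneg
    have : ((4 : ℤ) * W) ^ 2 * (κ + W * e) ≤ 0 :=
      mul_nonpos_of_nonneg_of_nonpos (by positivity) (not_lt.1 hneg)
    linarith
  obtain ⟨n, hn⟩ := Int.eq_ofNat_of_zero_le hpos.le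
  refine ⟨n, ?_, ?_, ?_⟩
  · have : (s : ℤ) ^ 4 = (j : ℤ) ^ 4 + (4 * (W : ℤ)) ^ 2 * n := by
      rw [← hn]; linarith
    exact_mod_cast this
  · rw [← Int.natCast_modEq_iff, ← hn]
    exact (Int.modEq_iff_dvd.2 ⟨-e, by ring⟩)
  · have : (0 : ℤ) < n := by rw [← hn]; exact hpos
    exact_mod_cast this

/-- first kind of bad pairs -/
def Bad1 (P0 s j : ℕ) : Prop := ∃ p : ℕ, p.Prime ∧ P0 < p ∧ ¬ p ∣ j ∧
  ((p : ℤ) ^ 2 ∣ (s : ℤ) - j ∨ (p : ℤ) ^ 2 ∣ (s : ℤ) + j ∨ (p : ℤ) ^ 2 ∣ (s : ℤ) ^ 2 + j ^ 2)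

/-- second kind of bad pairs -/
def Bad2 (P0 s j : ℕ) : Prop := ∃ p : ℕ, p.Prime ∧ P0 < p ∧ p ∣ s ∧ p ∣ j

theorem squarefree_of {W P0 P1 s j n k κ : ℕ} (hW : 0 < W) (hW2 : 2 ∣ W)
    (hWp : ∀ p : ℕ, p.Prime → p ∣ W → p ^ 2 ∣ W)
    (hWP : W ≤ P0) (hP1 : ∀ p : ℕ, p.Prime → p ≤ P0 → ¬ p ∣ W → p ∣ P1)
    (hs1 : s ≡ 1 [MOD P1]) (hj1 : P1 ∣ j) (hn : s ^ 4 = j ^ 4 + (4 * W) ^ 2 * n)
    (hk : Squarefree k) (hnk : n ≡ k [MOD W]) (h1 : ¬ Bad1 P0 s j) (h2 : ¬ Bad2 P0 s j) :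
    Squarefree n := by
  rw [Nat.squarefree_iff_prime_squarefree]
  intro p hp hpn
  have hpn2 : p ^ 2 ∣ n := by rw [pow_two]; exact hpn
  by_cases hpW : p ∣ W
  · have h3 : p ^ 2 ∣ W := hWp p hp hpW
    have h4 : n ≡ k [MOD p ^ 2] := hnk.of_dvd h3
    have h5 : p ^ 2 ∣ k := (Nat.modEq_zero_iff_dvd.1 ((h4.symm).trans
      (Nat.modEq_zero_iff_dvd.2 hpn2)))
    have h6 := hk p (by rw [← pow_two]; exact h5)
    exact hp.one_lt.ne' (Nat.isUnit_iff.1 h6)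
  · have hp0 : P0 < p := by
      by_contra hle
      have h3 : p ∣ P1 := hP1 p hp (not_lt.1 hle) hpW
      have h4 : p ∣ j := h3.trans hj1
      have h5 : p ∣ n := (dvd_pow_self p two_ne_zero).trans hpn2
      have h6 : p ∣ s ^ 4 := by
        rw [hn]
        exact dvd_add (h4.trans (dvd_pow_self j (by norm_num))) (h5.mul_left _)
      have h7 : p ∣ s := hp.dvd_of_dvd_pow h6
      have h8 : s ≡ 1 [MOD p] := hs1.of_dvd h3
      have h9 : p ∣ 1 := (Nat.modEq_zero_iff_dvd.1 ((h8.symm).trans (Nat.modEq_zero_iff_dvd.2 h7)))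
      exact hp.one_lt.ne' (Nat.dvd_one.1 h9)
    have hp2 : p ≠ 2 := by
      rintro rfl
      exact hpW hW2
    have hpz : Prime (p : ℤ) := Nat.prime_iff_prime_int.1 hp
    have hdvd : (p : ℤ) ^ 2 ∣ ((s : ℤ) - j) * (((s : ℤ) + j) * ((s : ℤ) ^ 2 + j ^ 2)) := by
      have h3 : ((s : ℤ) - j) * (((s : ℤ) + j) * ((s : ℤ) ^ 2 + j ^ 2)) = (4 * W) ^ 2 * n := by
        have : (s : ℤ) ^ 4 = (j : ℤ) ^ 4 + (4 * (W : ℤ)) ^ 2 * n := by exact_mod_cast hn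
        linear_combination this
      rw [h3]
      exact Dvd.dvd.mul_left (by exact_mod_cast hpn2) _
    by_cases hpj : p ∣ j
    · have h3 : p ∣ s := by
        have h5 : p ∣ n := (dvd_pow_self p two_ne_zero).trans hpn2
        have h6 : p ∣ s ^ 4 := by
          rw [hn]
          exact dvd_add (hpj.trans (dvd_pow_self j (by norm_num))) (h5.mul_left _)
        exact hp.dvd_of_dvd_pow h6
      exact h2 ⟨p, hp, hp0, h3, hpj⟩
    · apply h1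
      refine ⟨p, hp, hp0, hpj, ?_⟩
      have hpjz : ¬ (p : ℤ) ∣ j := fun h => hpj (by exact_mod_cast h)
      have hp2z : ¬ (p : ℤ) ∣ 2 := by
        intro h
        have h3 : p ∣ 2 := by exact_mod_cast h
        exact hp2 ((Nat.prime_dvd_prime_iff_eq hp Nat.prime_two).1 h3)
      have hp2j : ¬ (p : ℤ) ∣ 2 * j := fun h => (hpz.dvd_or_dvd h).elim hp2z hpjz
      -- coprimality of the factors modulo `p`
      by_cases c1 : (p : ℤ) ∣ (s : ℤ) - j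
      · left
        have c2 : ¬ (p : ℤ) ∣ ((s : ℤ) + j) * ((s : ℤ) ^ 2 + j ^ 2) := by
          intro h
          rcases hpz.dvd_or_dvd h with h | h
          · apply hp2j
            have := dvd_sub h c1
            rwa [show (s : ℤ) + j - (s - j) = 2 * j by ring] at this
          · have h4 : (p : ℤ) ∣ 2 * j * j := by
              have := dvd_sub h (c1.mul_right ((s : ℤ) + j))
              rwa [show (s : ℤ) ^ 2 + j ^ 2 - (s - j) * (s + j) = 2 * j * j by ring] at this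
            exact (hpz.dvd_or_dvd h4).elim hp2j hpjz
        exact hpz.pow_dvd_of_dvd_mul_right 2 c2 hdvd
      · right
        have h5 := hpz.pow_dvd_of_dvd_mul_left 2 c1 hdvd
        by_cases c3 : (p : ℤ) ∣ (s : ℤ) + j
        · left
          have c4 : ¬ (p : ℤ) ∣ (s : ℤ) ^ 2 + j ^ 2 := by
            intro h
            have h4 : (p : ℤ) ∣ 2 * j * j := by
              have := dvd_sub h (c3.mul_left ((s : ℤ) - j))
              rwa [show (s : ℤ) ^ 2 + j ^ 2 - (s - j) * (s + j) = 2 * j * j by ring] at this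
            exact (hpz.dvd_or_dvd h4).elim hp2j hpjz
          exact hpz.pow_dvd_of_dvd_mul_right 2 c4 h5
        · right
          exact hpz.pow_dvd_of_dvd_mul_left 2 c3 h5

end Pool.Agent.T2h88.BW
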