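import Pool.Agent.T2h88.BW.Alg

/-!
# Windows with many squarefree congruent numbers (helper88): counting bad pairs
-/

set_option autoImplicit false

open Finset

namespace Pool.Agent.T2h88.BW

theorem spaced {A B D : ℕ} (hD : 0 < D) (F : Finset ℕ) (hF : F ⊆ Ico A (A + B))
    (h : ∀ t1 ∈ F, ∀ t2 ∈ F, t1 ≤ t2 → D ∣ t2 - t1) : F.card ≤ B / D + 1 := by
  have h1 : F.card ≤ (range (B / D + 1)).card := by
    apply card_le_card_of_injOn (fun t => (t - A) / D)
    · intro t ht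
      have h2 := mem_Ico.1 (hF ht)
      rw [coe_range, Set.mem_Iio]
      exact Nat.lt_succ_of_le (Nat.div_le_div_right (by omega))
    · intro t1 h1 t2 h2 he
      wlog hle : t1 ≤ t2 generalizing t1 t2
      · exact (this h2 h1 he.symm (le_of_not_ge hle)).symm
      have h3 := h t1 h1 t2 h2 hle
      have h4 := mem_Ico.1 (hF h1)
      have h5 := mem_Ico.1 (hF h2)
      obtain ⟨c, hc⟩ := h3
      have he' : (t1 - A) / D = (t2 - A) / D := he
      have h6 : t2 - A = (t1 - A) + D * c := by omega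
      rw [h6, Nat.add_mul_div_left _ _ hD] at he'
      have : c = 0 := by omega
      rw [this, mul_zero] at hc
      omega
  rwa [card_range] at h1

open Classical in
theorem cnt_lin {A B Q p : ℕ} (hp : p.Prime) (hpQ : ¬ p ∣ Q) (c : ℤ) :
    ((Ico A (A + B)).filter (fun t => (p : ℤ) ^ 2 ∣ ((1 + Q * t : ℕ) : ℤ) + c)).card ≤
      B / p ^ 2 + 1 := by
  apply spaced (pow_pos hp.pos 2) _ (filter_subset _ _)
  intro t1 h1 t2 h2 hle
  have h3 := (mem_filter.1 h1).2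
  have h4 := (mem_filter.1 h2).2
  have h5 := dvd_sub h4 h3
  have h6 : ((1 + Q * t2 : ℕ) : ℤ) + c - (((1 + Q * t1 : ℕ) : ℤ) + c) =
      ((Q * (t2 - t1) : ℕ) : ℤ) := by
    push_cast [Nat.cast_sub hle]
    ring
  rw [h6] at h5
  have h7 : p ^ 2 ∣ Q * (t2 - t1) := by exact_mod_cast h5
  have hc : Nat.Coprime (p ^ 2) Q :=
    Nat.Coprime.pow_left 2 ((Nat.Prime.coprime_iff_not_dvd hp).2 hpQ)
  exact hc.dvd_of_dvd_mul_left h7

open Classical in
theorem cnt_quad {A B Q p j : ℕ} (hp : p.Prime) (hp2 : p ≠ 2) (hpQ : ¬ p ∣ Q) (hpj : ¬ p ∣ j) :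
    ((Ico A (A + B)).filter
      (fun t => (p : ℤ) ^ 2 ∣ ((1 + Q * t : ℕ) : ℤ) ^ 2 + (j : ℤ) ^ 2)).card ≤
      2 * (B / p ^ 2 + 1) := by
  set F := (Ico A (A + B)).filter
    (fun t => (p : ℤ) ^ 2 ∣ ((1 + Q * t : ℕ) : ℤ) ^ 2 + (j : ℤ) ^ 2) with hF
  rcases F.eq_empty_or_nonempty with h0 | ⟨t1, ht1⟩
  · rw [h0]; simp
  have hpz : Prime (p : ℤ) := Nat.prime_iff_prime_int.1 hp
  have hpjz : ¬ (p : ℤ) ∣ j := fun h => hpj (by exact_mod_cast h)
  have hp2z : ¬ (p : ℤ) ∣ 2 := by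
    intro h
    have h3 : p ∣ 2 := by exact_mod_cast h
    exact hp2 ((Nat.prime_dvd_prime_iff_eq hp Nat.prime_two).1 h3)
  set s1 : ℤ := ((1 + Q * t1 : ℕ) : ℤ) with hs1
  have hd1 : (p : ℤ) ^ 2 ∣ s1 ^ 2 + (j : ℤ) ^ 2 := (mem_filter.1 ht1).2
  have hsub : F ⊆ ((Ico A (A + B)).filter
        (fun t => (p : ℤ) ^ 2 ∣ ((1 + Q * t : ℕ) : ℤ) + (-s1))) ∪
      ((Ico A (A + B)).filter (fun t => (p : ℤ) ^ 2 ∣ ((1 + Q * t : ℕ) : ℤ) + s1)) := by
    intro t ht
    have ht' := mem_filter.1 ht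
    set s : ℤ := ((1 + Q * t : ℕ) : ℤ) with hs
    have hd2 : (p : ℤ) ^ 2 ∣ (s + -s1) * (s + s1) := by
      have := dvd_sub ht'.2 hd1
      rwa [show s ^ 2 + (j : ℤ) ^ 2 - (s1 ^ 2 + (j : ℤ) ^ 2) = (s + -s1) * (s + s1) by ring] at this
    rw [mem_union, mem_filter, mem_filter]
    by_cases c1 : (p : ℤ) ∣ s + -s1
    · have c2 : ¬ (p : ℤ) ∣ s + s1 := by
        intro h
        have h3 : (p : ℤ) ∣ 2 * s1 := by
          have := dvd_sub h c1
          rwa [show s + s1 - (s + -s1) = 2 * s1 by ring] at this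
        have h4 : (p : ℤ) ∣ s1 := (hpz.dvd_or_dvd h3).resolve_left hp2z
        have h5 : (p : ℤ) ∣ (j : ℤ) ^ 2 := by
          have h6 : (p : ℤ) ∣ s1 ^ 2 + (j : ℤ) ^ 2 := (dvd_pow_self _ two_ne_zero).trans hd1
          have := dvd_sub h6 (h4.trans (dvd_pow_self s1 two_ne_zero))
          rwa [add_sub_cancel_left] at this
        exact hpjz (hpz.dvd_of_dvd_pow h5)
      left
      exact ⟨ht'.1, hpz.pow_dvd_of_dvd_mul_right 2 c2 hd2⟩
    · right
      exact ⟨ht'.1, hpz.pow_dvd_of_dvd_mul_left 2 c1 hd2⟩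
  refine (card_le_card hsub).trans ((card_union_le _ _).trans ?_)
  have h1 := cnt_lin (A := A) (B := B) hp hpQ (-s1)
  have h2 := cnt_lin (A := A) (B := B) hp hpQ s1
  omega

open Classical in
theorem cnt_bad1 {A B Q P0 Y j : ℕ} (hP0 : 2 ≤ P0) (hQ : ∀ p : ℕ, p.Prime → P0 < p → ¬ p ∣ Q)
    (hY : ∀ t < A + B, 2 * (1 + Q * t) ≤ Y) (hj : ∀ t, A ≤ t → j < 1 + Q * t) :
    ((Ico A (A + B)).filter (fun t => Bad1 P0 (1 + Q * t) j)).card ≤
      ∑ p ∈ (Ioc P0 Y).filter Nat.Prime, 4 * (B / p ^ 2 + 1) := by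
  have hsub : (Ico A (A + B)).filter (fun t => Bad1 P0 (1 + Q * t) j) ⊆
      ((Ioc P0 Y).filter Nat.Prime).biUnion (fun p => if p ∣ j then ∅ else
        ((Ico A (A + B)).filter (fun t => (p : ℤ) ^ 2 ∣ ((1 + Q * t : ℕ) : ℤ) + (-(j : ℤ)))) ∪
        (((Ico A (A + B)).filter (fun t => (p : ℤ) ^ 2 ∣ ((1 + Q * t : ℕ) : ℤ) + (j : ℤ))) ∪
        ((Ico A (A + B)).filter
          (fun t => (p : ℤ) ^ 2 ∣ ((1 + Q * t : ℕ) : ℤ) ^ 2 + (j : ℤ) ^ 2)))) := by
    intro t ht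
    obtain ⟨ht1, p, hp, hp0, hpj, hdv⟩ := mem_filter.1 ht
    have ht2 := mem_Ico.1 ht1
    have hYt := hY t ht2.2
    have hjt := hj t ht2.1
    set s := 1 + Q * t with hs
    rw [mem_biUnion]
    refine ⟨p, ?_, ?_⟩
    · rw [mem_filter, mem_Ioc]
      refine ⟨⟨hp0, ?_⟩, hp⟩
      rcases hdv with h | h | h
      · have h1 : (0 : ℤ) < (s : ℤ) - j := by
          have : (j : ℤ) < s := by exact_mod_cast hjt
          linarith
        have h2 := Int.le_of_dvd h1 h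
        have h3 : (p : ℤ) ≤ p ^ 2 := by
          have : (1 : ℤ) ≤ p := by exact_mod_cast hp.pos
          nlinarith
        have h4 : (p : ℤ) ≤ s := by
          have : (0 : ℤ) ≤ j := by positivity
          linarith
        have h5 : p ≤ s := by exact_mod_cast h4
        omega
      · have h1 : (0 : ℤ) < (s : ℤ) + j := by positivity
        have h2 := Int.le_of_dvd h1 h
        have h3 : (p : ℤ) ≤ p ^ 2 := by
          have : (1 : ℤ) ≤ p := by exact_mod_cast hp.pos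
          nlinarith
        have h4 : (p : ℤ) ≤ s + j := by linarith
        have h5 : p ≤ s + j := by exact_mod_cast h4
        omega
      · have h1 : (0 : ℤ) < (s : ℤ) ^ 2 + j ^ 2 := by positivity
        have h2 := Int.le_of_dvd h1 h
        have h2' : p ^ 2 ≤ s ^ 2 + j ^ 2 := by exact_mod_cast h2
        have h3 : p < 2 * s := by
          by_contra hle
          have h4 : (2 * s) ^ 2 ≤ p ^ 2 := Nat.pow_le_pow_left (not_lt.1 hle) 2
          have h5 : j ^ 2 < s ^ 2 := Nat.pow_lt_pow_left hjt two_ne_zero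
          nlinarith
        omega
    · rw [if_neg hpj, mem_union, mem_union, mem_filter, mem_filter, mem_filter]
      rcases hdv with h | h | h
      · left
        refine ⟨ht1, ?_⟩
        rw [← sub_eq_add_neg]
        exact h
      · right; left; exact ⟨ht1, h⟩
      · right; right; exact ⟨ht1, h⟩
  refine (card_le_card hsub).trans (card_biUnion_le.trans (sum_le_sum fun p hp => ?_))
  obtain ⟨hp1, hpp⟩ := mem_filter.1 hp
  have hp2 := mem_Ioc.1 hp1
  split_ifs with hpj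
  · simp
  · have hpQ := hQ p hpp hp2.1
    refine (card_union_le _ _).trans ?_
    have h1 := cnt_lin (A := A) (B := B) hpp hpQ (-(j : ℤ))
    have h2 := cnt_lin (A := A) (B := B) hpp hpQ (j : ℤ)
    have h3 := cnt_quad (A := A) (B := B) hpp (by omega) hpQ hpj
    have h4 := card_union_le ((Ico A (A + B)).filter
        (fun t => (p : ℤ) ^ 2 ∣ ((1 + Q * t : ℕ) : ℤ) + (j : ℤ)))
      ((Ico A (A + B)).filter (fun t => (p : ℤ) ^ 2 ∣ ((1 + Q * t : ℕ) : ℤ) ^ 2 + (j : ℤ) ^ 2))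
    omega

theorem cnt_div {A B Q p : ℕ} (c : ℕ) (hp : p.Prime) (hpQ : ¬ p ∣ Q) :
    ((Ico A (A + B)).filter (fun t => p ∣ c + Q * t)).card ≤ B / p + 1 := by
  apply spaced hp.pos _ (filter_subset _ _)
  intro t1 h1 t2 h2 hle
  have h3 := (mem_filter.1 h1).2
  have h4 := (mem_filter.1 h2).2
  have h5 := (Nat.dvd_sub h4 h3)
  have h6 : c + Q * t2 - (c + Q * t1) = Q * (t2 - t1) := by
    rw [Nat.mul_sub]
    omega
  rw [h6] at h5
  exact ((Nat.Prime.coprime_iff_not_dvd hp).2 hpQ).dvd_of_dvd_mul_left h5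

open Classical in
theorem cnt_bad2 {A B Q P0 T j0 K : ℕ} (hK : 0 < K)
    (hQ : ∀ p : ℕ, p.Prime → P0 < p → ¬ p ∣ Q) (hT : ∀ p : ℕ, p.Prime → P0 < p → ¬ p ∣ T)
    (hj0 : 0 < j0) (hj : ∀ i < 2 * K, j0 + T * i ≤ (2 * K) ^ 2) :
    ∑ i ∈ range (2 * K), ((Ico A (A + B)).filter (fun t => Bad2 P0 (1 + Q * t) (j0 + T * i))).card ≤
      ∑ p ∈ (Ioc P0 (2 * K)).filter Nat.Prime, (B / p + 1) * (2 * K / p + 1) +
        2 * K * (B / (2 * K) + 1) := by
  have key : ∀ i ∈ range (2 * K),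
      ((Ico A (A + B)).filter (fun t => Bad2 P0 (1 + Q * t) (j0 + T * i))).card ≤
      (∑ p ∈ (Ioc P0 (2 * K)).filter Nat.Prime, if p ∣ j0 + T * i then B / p + 1 else 0) +
        (B / (2 * K) + 1) := by
    intro i hi
    have hi' := mem_range.1 hi
    set j := j0 + T * i with hjd
    have hjpos : 0 < j := by omega
    have hjle := hj i hi'
    have hsub : (Ico A (A + B)).filter (fun t => Bad2 P0 (1 + Q * t) j) ⊆
        (((Ioc P0 (2 * K)).filter Nat.Prime).biUnion (fun p => if p ∣ j then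
          (Ico A (A + B)).filter (fun t => p ∣ 1 + Q * t) else ∅)) ∪
        ((Ico A (A + B)).filter (fun t => ∃ p : ℕ, p.Prime ∧ P0 < p ∧ 2 * K < p ∧ p ∣ 1 + Q * t ∧
          p ∣ j)) := by
      intro t ht
      obtain ⟨ht1, p, hp, hp0, hps, hpj⟩ := mem_filter.1 ht
      rw [mem_union]
      by_cases h : 2 * K < p
      · right
        exact mem_filter.2 ⟨ht1, p, hp, hp0, h, hps, hpj⟩
      · left
        rw [mem_biUnion]
        refine ⟨p, mem_filter.2 ⟨mem_Ioc.2 ⟨hp0, not_lt.1 h⟩, hp⟩, ?_⟩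
        rw [if_pos hpj]
        exact mem_filter.2 ⟨ht1, hps⟩
    refine (card_le_card hsub).trans ((card_union_le _ _).trans (add_le_add ?_ ?_))
    · refine card_biUnion_le.trans (sum_le_sum fun p hp => ?_)
      obtain ⟨hp1, hpp⟩ := mem_filter.1 hp
      have hp2 := mem_Ioc.1 hp1
      split_ifs with hpj
      · exact cnt_div 1 hpp (hQ p hpp hp2.1)
      · simp
    · by_cases hex : ∃ q : ℕ, q.Prime ∧ P0 < q ∧ 2 * K < q ∧ q ∣ j
      · obtain ⟨q, hq, hq0, hqK, hqj⟩ := hex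
        have hsub2 : ((Ico A (A + B)).filter (fun t => ∃ p : ℕ, p.Prime ∧ P0 < p ∧ 2 * K < p ∧
            p ∣ 1 + Q * t ∧ p ∣ j)) ⊆ (Ico A (A + B)).filter (fun t => q ∣ 1 + Q * t) := by
          intro t ht
          obtain ⟨ht1, p, hp, hp0, hpK, hps, hpj⟩ := mem_filter.1 ht
          refine mem_filter.2 ⟨ht1, ?_⟩
          by_cases hpq : p = q
          · rw [← hpq]; exact hps
          · exfalso
            have h1 : p * q ∣ j := ((Nat.coprime_primes hp hq).2 hpq).mul_dvd_of_dvd_of_dvd hpj hqj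
            have h2 := Nat.le_of_dvd hjpos h1
            have h3 : (2 * K) ^ 2 < p * q := by
              rw [pow_two]
              exact Nat.mul_lt_mul'' hpK hqK
            omega
        refine (card_le_card hsub2).trans ((cnt_div 1 hq (hQ q hq hq0)).trans ?_)
        have : B / q ≤ B / (2 * K) := Nat.div_le_div_left hqK.le (by omega)
        omega
      · have : ((Ico A (A + B)).filter (fun t => ∃ p : ℕ, p.Prime ∧ P0 < p ∧ 2 * K < p ∧
            p ∣ 1 + Q * t ∧ p ∣ j)) = ∅ := by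
          apply filter_eq_empty_iff.2
          rintro t - ⟨p, hp, hp0, hpK, -, hpj⟩
          exact hex ⟨p, hp, hp0, hpK, hpj⟩
        rw [this]; simp
  refine (sum_le_sum key).trans ?_
  rw [sum_add_distrib, sum_const, card_range, smul_eq_mul]
  refine Nat.add_le_add_right ?_ _
  rw [sum_comm]
  refine sum_le_sum fun p hp => ?_
  obtain ⟨hp1, hpp⟩ := mem_filter.1 hp
  have hp2 := mem_Ioc.1 hp1
  rw [← sum_filter, sum_const, smul_eq_mul, mul_comm]
  refine Nat.mul_le_mul_left _ ?_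
  have h1 := cnt_div (A := 0) (B := 2 * K) j0 hpp (hT p hpp hp2.1)
  rw [zero_add, ← range_eq_Ico] at h1
  exact h1

end Pool.Agent.T2h88.BW
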