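import Pool.Agent.T2h88.BW.Cnt

/-!
# Windows with many squarefree congruent numbers (helper88): estimates
-/

set_option autoImplicit false

open Finset

namespace Pool.Agent.T2h88.BW

theorem sum_inv_sq {P0 Y : ℕ} (hP : 0 < P0) :
    ∑ p ∈ (Ioc P0 Y).filter Nat.Prime, ((p : ℝ) ^ 2)⁻¹ ≤ 1 / P0 := by
  refine (sum_le_sum_of_subset_of_nonneg (filter_subset _ _) (fun _ _ _ => by positivity)).trans ?_
  rcases le_total P0 Y with h | h
  · refine (sum_Ioc_inv_sq_le_sub (α := ℝ) hP.ne' h).trans ?_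
    rw [one_div]
    have : (0 : ℝ) ≤ (Y : ℝ)⁻¹ := by positivity
    linarith
  · rw [Ioc_eq_empty (by omega), sum_empty]
    positivity

theorem card_primes (P0 Y : ℕ) : ((Ioc P0 Y).filter Nat.Prime).card ≤ Nat.primeCounting Y := by
  unfold Nat.primeCounting Nat.primeCounting'
  rw [Nat.count_eq_card_filter_range]
  apply card_le_card
  intro p hp
  obtain ⟨h1, h2⟩ := mem_filter.1 hp
  have := mem_Ioc.1 h1
  exact mem_filter.2 ⟨mem_range.2 (by omega), h2⟩

theorem est1 {P0 Y B : ℕ} (hP : 0 < P0) :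
    ((∑ p ∈ (Ioc P0 Y).filter Nat.Prime, 4 * (B / p ^ 2 + 1) : ℕ) : ℝ) ≤
      4 * B / P0 + 4 * Nat.primeCounting Y := by
  push_cast
  have h1 : ∀ p ∈ (Ioc P0 Y).filter Nat.Prime, (4 : ℝ) * (((B / p ^ 2 : ℕ) : ℝ) + 1) ≤
      4 * B * ((p : ℝ) ^ 2)⁻¹ + 4 := by
    intro p hp
    have h2 : ((B / p ^ 2 : ℕ) : ℝ) ≤ (B : ℝ) / ((p ^ 2 : ℕ) : ℝ) := Nat.cast_div_le
    push_cast at h2
    rw [div_eq_mul_inv] at h2
    nlinarith
  refine (sum_le_sum h1).trans ?_
  rw [sum_add_distrib, ← mul_sum, sum_const, nsmul_eq_mul]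
  have h3 := sum_inv_sq (P0 := P0) (Y := Y) hP
  have h4 : (((Ioc P0 Y).filter Nat.Prime).card : ℝ) ≤ Nat.primeCounting Y := by
    exact_mod_cast card_primes P0 Y
  have h5 : 4 * (B : ℝ) * ∑ p ∈ (Ioc P0 Y).filter Nat.Prime, ((p : ℝ) ^ 2)⁻¹ ≤
      4 * B * (1 / P0) := mul_le_mul_of_nonneg_left h3 (by positivity)
  rw [show 4 * (B : ℝ) / P0 = 4 * B * (1 / P0) by ring]
  linarith

theorem est2 {P0 B K : ℕ} (hP : 0 < P0) (hKB : 2 * K ≤ B) :
    ((∑ p ∈ (Ioc P0 (2 * K)).filter Nat.Prime, (B / p + 1) * (2 * K / p + 1) : ℕ) : ℝ) ≤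
      8 * B * K / P0 := by
  push_cast
  have h1 : ∀ p ∈ (Ioc P0 (2 * K)).filter Nat.Prime,
      (((B / p : ℕ) : ℝ) + 1) * (((2 * K / p : ℕ) : ℝ) + 1) ≤ 8 * B * K * ((p : ℝ) ^ 2)⁻¹ := by
    intro p hp
    obtain ⟨hp1, hpp⟩ := mem_filter.1 hp
    have hp2 := mem_Ioc.1 hp1
    have hp0 : (0 : ℝ) < p := by exact_mod_cast hpp.pos
    have h2 : ((B / p : ℕ) : ℝ) ≤ (B : ℝ) / (p : ℝ) := Nat.cast_div_le
    have h3 : ((2 * K / p : ℕ) : ℝ) ≤ ((2 * K : ℕ) : ℝ) / (p : ℝ) := Nat.cast_div_le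
    have h4 : (1 : ℝ) ≤ (B : ℝ) / p := by
      rw [le_div_iff₀ hp0, one_mul]
      exact_mod_cast hp2.2.trans hKB
    have h5 : (1 : ℝ) ≤ ((2 * K : ℕ) : ℝ) / p := by
      rw [le_div_iff₀ hp0, one_mul]
      exact_mod_cast hp2.2
    calc (((B / p : ℕ) : ℝ) + 1) * (((2 * K / p : ℕ) : ℝ) + 1)
        ≤ (2 * (B / p)) * (2 * (((2 * K : ℕ) : ℝ) / p)) := by
          apply mul_le_mul _ _ (by positivity) (by positivity)
          · linarith
          · linarith
      _ = 8 * B * K * ((p : ℝ) ^ 2)⁻¹ := by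
          push_cast
          field_simp
          ring
  refine (sum_le_sum h1).trans ?_
  rw [← mul_sum, show 8 * (B : ℝ) * K / P0 = 8 * B * K * (1 / P0) by ring]
  exact mul_le_mul_of_nonneg_left (sum_inv_sq hP) (by positivity)

open Classical in
/-- averaging -/
theorem avg {W K B : ℕ} (hK : 0 < K) (I : Finset ℕ) (hI : I.card = B)
    (bad : ℕ → ℕ → ℕ → Prop) (D : ℝ)
    (h : ∀ κ < W, ((∑ i ∈ range (2 * K), (I.filter (fun t => bad κ i t)).card : ℕ) : ℝ) ≤ D)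
    (hD : W * D ≤ K * B / 2) :
    (B : ℝ) / 2 ≤ ((I.filter (fun t => ∀ κ < W,
      K ≤ ((range (2 * K)).filter (fun i => ¬ bad κ i t)).card)).card : ℝ) := by
  set G : ℕ → ℕ := fun t => ∑ κ ∈ range W, ((range (2 * K)).filter (fun i => bad κ i t)).card
    with hG
  have hsum : ((∑ t ∈ I, G t : ℕ) : ℝ) ≤ W * D := by
    have e : ∑ t ∈ I, G t = ∑ κ ∈ range W, ∑ i ∈ range (2 * K),
        (I.filter (fun t => bad κ i t)).card := by
      rw [sum_comm]
      refine sum_congr rfl fun κ _ => ?_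
      simp only [card_filter]
      rw [sum_comm]
    rw [e, Nat.cast_sum]
    refine (sum_le_sum (f := fun κ => ((∑ i ∈ range (2 * K),
      (I.filter (fun t => bad κ i t)).card : ℕ) : ℝ)) (g := fun _ => D) fun κ hκ =>
      h κ (mem_range.1 hκ)).trans ?_
    rw [sum_const, card_range, nsmul_eq_mul]
  set I1 := I.filter (fun t => K < G t) with hI1
  have h1 : (K : ℝ) * I1.card ≤ W * D := by
    refine le_trans ?_ hsum
    have : K * I1.card ≤ ∑ t ∈ I, G t := by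
      calc K * I1.card = ∑ t ∈ I1, K := by rw [sum_const, smul_eq_mul, mul_comm]
        _ ≤ ∑ t ∈ I1, G t := sum_le_sum fun t ht => (mem_filter.1 ht).2.le
        _ ≤ ∑ t ∈ I, G t := sum_le_sum_of_subset (filter_subset _ _)
    exact_mod_cast this
  have h2 : (I1.card : ℝ) ≤ B / 2 := by
    have hKr : (0 : ℝ) < K := by exact_mod_cast hK
    have h3 : (K : ℝ) * I1.card ≤ K * (B / 2) := by linarith
    exact le_of_mul_le_mul_left h3 hKr
  have h3 : I \ I1 ⊆ I.filter (fun t => ∀ κ < W,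
      K ≤ ((range (2 * K)).filter (fun i => ¬ bad κ i t)).card) := by
    intro t ht
    obtain ⟨ht1, ht2⟩ := mem_sdiff.1 ht
    refine mem_filter.2 ⟨ht1, fun κ hκ => ?_⟩
    have h4 : G t ≤ K := by
      by_contra h5
      exact ht2 (mem_filter.2 ⟨ht1, not_le.1 h5⟩)
    have h5 : ((range (2 * K)).filter (fun i => bad κ i t)).card ≤ G t :=
      single_le_sum (f := fun κ => ((range (2 * K)).filter (fun i => bad κ i t)).card)
        (fun _ _ => Nat.zero_le _) (mem_range.2 hκ)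
    have h6 := card_filter_add_card_filter_not (s := range (2 * K)) (fun i => bad κ i t)
    rw [card_range] at h6
    omega
  have h4 := card_le_card h3
  have h5 : B ≤ (I \ I1).card + I1.card := by
    rw [← hI, card_sdiff_add_card]
    exact card_le_card subset_union_left
  have h6 : (B : ℝ) ≤ (I \ I1).card + I1.card := by exact_mod_cast h5
  have h7 : ((I \ I1).card : ℝ) ≤ ((I.filter (fun t => ∀ κ < W,
      K ≤ ((range (2 * K)).filter (fun i => ¬ bad κ i t)).card)).card : ℝ) := by exact_mod_cast h4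
  linarith

end Pool.Agent.T2h88.BW
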