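import Pool.Agent.T2h88.BW.Est

/-!
# Windows with many squarefree congruent numbers (helper88): one value of `s`
-/

set_option autoImplicit false

open Finset

namespace Pool.Agent.T2h88.BW

open Classical in
/-- the primes up to `P0` not dividing `W` -/
noncomputable def P1 (W P0 : ℕ) : ℕ := ∏ p ∈ (range (P0 + 1)).filter (fun p => p.Prime ∧ ¬ p ∣ W), p

theorem P1_pos (W P0 : ℕ) : 0 < P1 W P0 :=
  prod_pos fun p hp => (mem_filter.1 hp).2.1.pos

theorem dvd_P1 {W P0 p : ℕ} (hp : p.Prime) (hle : p ≤ P0) (hW : ¬ p ∣ W) : p ∣ P1 W P0 :=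
  dvd_prod_of_mem _ (mem_filter.2 ⟨mem_range.2 (by omega), hp, hW⟩)

theorem P1_coprime (W P0 : ℕ) : Nat.Coprime (P1 W P0) W :=
  Nat.Coprime.prod_left fun p hp =>
    (Nat.Prime.coprime_iff_not_dvd (mem_filter.1 hp).2.1).2 (mem_filter.1 hp).2.2

theorem not_dvd_P1 {W P0 p : ℕ} (hp : p.Prime) (h : P0 < p) : ¬ p ∣ P1 W P0 := by
  intro hd
  obtain ⟨q, hq, hpq⟩ := (Prime.dvd_finsetProd_iff hp.prime _).1 hd
  have hq' := mem_filter.1 hq
  have := (Nat.prime_dvd_prime_iff_eq hp hq'.2.1).1 hpq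
  have := mem_range.1 hq'.1
  omega

/-- the modulus for `j` -/
noncomputable def Tm (W P0 : ℕ) : ℕ := 4 * W ^ 3 * P1 W P0

theorem exists_j0 {W P0 : ℕ} (hW : 0 < W) (hW2 : 2 ∣ W) (κ : ℕ) : ∃ j0 : ℕ, 0 < j0 ∧
    j0 ≤ Tm W P0 ∧ j0 ≡ 1 + 4 * W ^ 2 * ((W - 1) * κ) [MOD 4 * W ^ 3] ∧ P1 W P0 ∣ j0 := by
  have hc : Nat.Coprime (4 * W ^ 3) (P1 W P0) := by
    have h1 : Nat.Coprime W (P1 W P0) := (P1_coprime W P0).symm
    have h2 : Nat.Coprime 2 (P1 W P0) := Nat.Coprime.coprime_dvd_left hW2 h1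
    have h4 : Nat.Coprime 4 (P1 W P0) := by
      have := Nat.Coprime.pow_left 2 h2
      simpa using this
    exact Nat.Coprime.mul_left h4 (Nat.Coprime.pow_left 3 h1)
  set z := Nat.chineseRemainder hc (1 + 4 * W ^ 2 * ((W - 1) * κ)) 0 with hz
  have h0 : 4 * W ^ 3 ≠ 0 := by positivity
  have hlt : (z : ℕ) < 4 * W ^ 3 * P1 W P0 :=
    Nat.chineseRemainder_lt_mul hc _ _ h0 (P1_pos W P0).ne'
  refine ⟨z, ?_, hlt.le, z.2.1, (Nat.modEq_zero_iff_dvd.1 z.2.2)⟩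
  rw [Nat.pos_iff_ne_zero]
  intro hz0
  have h1 : (z : ℕ) ≡ 1 + 4 * W ^ 2 * ((W - 1) * κ) [MOD 2] :=
    (z.2.1).of_dvd (by exact ⟨2 * W ^ 3, by ring⟩)
  rw [hz0] at h1
  have h2 : (1 + 4 * W ^ 2 * ((W - 1) * κ)) % 2 = 1 := by
    have : 4 * W ^ 2 * ((W - 1) * κ) = 2 * (2 * W ^ 2 * ((W - 1) * κ)) := by ring
    omega
  unfold Nat.ModEq at h1
  omega

/-- bad pairs -/
def Bad (P0 s j : ℕ) : Prop := Bad1 P0 s j ∨ Bad2 P0 s j

section

variable {W P0 A B K Y : ℕ}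

theorem not_dvd_T (hWP : W ≤ P0) (hW : 0 < W) (hP0 : 4 ≤ P0) (p : ℕ) (hp : p.Prime) (h : P0 < p) :
    ¬ p ∣ Tm W P0 := by
  intro hd
  unfold Tm at hd
  rcases (Nat.Prime.dvd_mul hp).1 hd with hd | hd
  · rcases (Nat.Prime.dvd_mul hp).1 hd with hd | hd
    · have := Nat.le_of_dvd (by norm_num) hd
      omega
    · have := Nat.le_of_dvd hW (hp.dvd_of_dvd_pow hd)
      omega
  · exact not_dvd_P1 hp h hd

open Classical in
/-- most `t` are good -/
theorem many_good (hW : 0 < W) (hP0 : P0 = 128 * W) (j0 : ℕ → ℕ) (hj0 : ∀ κ, 0 < j0 κ)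
    (hj0T : ∀ κ, j0 κ ≤ Tm W P0) (hTK : Tm W P0 ≤ 2 * K) (hKW : 8 * W ≤ K) (hKB : 2 * K ≤ B)
    (hBW : 16 * W ≤ B) (hpi : 64 * W * Nat.primeCounting Y ≤ B)
    (hY : ∀ t < A + B, 2 * (1 + 4 * Tm W P0 * t) ≤ Y)
    (hjA : 2 * K * Tm W P0 < 1 + 4 * Tm W P0 * A) :
    (B : ℝ) / 2 ≤ (((Ico A (A + B)).filter (fun t => ∀ κ < W,
      K ≤ ((range (2 * K)).filter
        (fun i => ¬ Bad P0 (1 + 4 * Tm W P0 * t) (j0 κ + Tm W P0 * i))).card)).card : ℝ) := by
  set T := Tm W P0 with hT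
  have hK : 0 < K := by omega
  have hWP : W ≤ P0 := by omega
  have hnT : ∀ p : ℕ, p.Prime → P0 < p → ¬ p ∣ T := fun p hp h =>
    not_dvd_T hWP hW (by omega) p hp h
  have hnQ : ∀ p : ℕ, p.Prime → P0 < p → ¬ p ∣ 4 * T := by
    intro p hp h hd
    rcases (Nat.Prime.dvd_mul hp).1 hd with hd | hd
    · have := Nat.le_of_dvd (by norm_num) hd
      omega
    · exact hnT p hp h hd
  have hjle : ∀ κ, ∀ i < 2 * K, j0 κ + T * i ≤ 2 * K * T := by
    intro κ i hi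
    have h1 := hj0T κ
    have h2 : T * i ≤ T * (2 * K - 1) := Nat.mul_le_mul_left _ (by omega)
    have h3 : T + T * (2 * K - 1) = 2 * K * T := by
      obtain ⟨k, hk⟩ : ∃ k, 2 * K = k + 1 := ⟨2 * K - 1, by omega⟩
      rw [hk, Nat.add_sub_cancel]; ring
    omega
  apply avg hK (Ico A (A + B)) (by rw [Nat.card_Ico]; omega)
    (fun κ i t => Bad P0 (1 + 4 * T * t) (j0 κ + T * i))
    (2 * K * (4 * B / P0 + 4 * Nat.primeCounting Y) + 8 * B * K / P0 + (B + 2 * K))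
  · intro κ hκ
    have h1 : ∀ i ∈ range (2 * K), ((Ico A (A + B)).filter (fun t =>
        Bad P0 (1 + 4 * T * t) (j0 κ + T * i))).card ≤
        (∑ p ∈ (Ioc P0 Y).filter Nat.Prime, 4 * (B / p ^ 2 + 1)) +
        ((Ico A (A + B)).filter (fun t => Bad2 P0 (1 + 4 * T * t) (j0 κ + T * i))).card := by
      intro i hi
      have hsub : (Ico A (A + B)).filter (fun t => Bad P0 (1 + 4 * T * t) (j0 κ + T * i)) ⊆
          (Ico A (A + B)).filter (fun t => Bad1 P0 (1 + 4 * T * t) (j0 κ + T * i)) ∪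
          (Ico A (A + B)).filter (fun t => Bad2 P0 (1 + 4 * T * t) (j0 κ + T * i)) := by
        intro t ht
        obtain ⟨ht1, ht2⟩ := mem_filter.1 ht
        rw [mem_union, mem_filter, mem_filter]
        exact ht2.elim (fun h => Or.inl ⟨ht1, h⟩) (fun h => Or.inr ⟨ht1, h⟩)
      refine (card_le_card hsub).trans
        ((card_union_le _ _).trans (Nat.add_le_add_right ?_ _))
      apply cnt_bad1 (by omega) hnQ hY
      intro t ht
      have h2 := hjle κ i (mem_range.1 hi)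
      have h3 : 4 * T * A ≤ 4 * T * t := Nat.mul_le_mul_left _ ht
      omega
    have h2 := sum_le_sum h1
    rw [sum_add_distrib, sum_const, card_range, smul_eq_mul] at h2
    have h3 := cnt_bad2 (A := A) (B := B) (Q := 4 * T) (P0 := P0) (T := T) (j0 := j0 κ) hK hnQ hnT
      (hj0 κ) (fun i hi => (hjle κ i hi).trans (by
        rw [pow_two]; exact Nat.mul_le_mul_left _ hTK))
    have h4 := h2.trans (Nat.add_le_add_left h3 _)
    have e1 := est1 (P0 := P0) (Y := Y) (B := B) (by omega)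
    have e2 := est2 (P0 := P0) (B := B) (K := K) (by omega) hKB
    have e3 : 2 * K * (B / (2 * K) + 1) ≤ B + 2 * K := by
      have := Nat.mul_div_le B (2 * K)
      rw [Nat.mul_add, mul_one]
      omega
    have h5 := (Nat.cast_le (α := ℝ)).2 h4
    have e3' := (Nat.cast_le (α := ℝ)).2 e3
    push_cast at h5 e1 e2 e3' ⊢
    have hKr : (0 : ℝ) < K := by exact_mod_cast hK
    have e1' := mul_le_mul_of_nonneg_left e1 (show (0 : ℝ) ≤ 2 * K by positivity)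
    linarith
  · have hWr : (0 : ℝ) < W := by exact_mod_cast hW
    have hKr : (0 : ℝ) < K := by exact_mod_cast hK
    have hBr : (0 : ℝ) ≤ B := by positivity
    have h1 : (P0 : ℝ) = 128 * W := by rw [hP0]; push_cast; ring
    have h2 : (64 : ℝ) * W * Nat.primeCounting Y ≤ B := by exact_mod_cast hpi
    have h3 : (8 : ℝ) * W ≤ K := by exact_mod_cast hKW
    have h4 : (16 : ℝ) * W ≤ B := by exact_mod_cast hBW
    rw [h1]
    have e : (W : ℝ) * (2 * K * (4 * B / (128 * W) + 4 * Nat.primeCounting Y) +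
        8 * B * K / (128 * W) + (B + 2 * K)) =
        K * B / 8 + K * (64 * W * Nat.primeCounting Y) / 8 + (8 * W) * B / 8 +
          K * (16 * W) / 8 := by
      field_simp
      ring
    rw [e]
    have f1 : (K : ℝ) * (64 * W * Nat.primeCounting Y) ≤ K * B :=
      mul_le_mul_of_nonneg_left h2 hKr.le
    have f2 : (8 : ℝ) * W * B ≤ K * B := mul_le_mul_of_nonneg_right h3 hBr
    have f3 : (K : ℝ) * (16 * W) ≤ K * B := mul_le_mul_of_nonneg_left h4 hKr.le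
    linarith

/-- the numbers found for one good `s` -/
theorem rich {t : ℕ} (hW : 0 < W) (hW2 : 2 ∣ W) (hWp : ∀ p : ℕ, p.Prime → p ∣ W → p ^ 2 ∣ W)
    (hWP : W ≤ P0) (j0 κ : ℕ) (hj0 : 0 < j0) (hj0T : j0 ≤ Tm W P0)
    (hj1 : j0 ≡ 1 + 4 * W ^ 2 * ((W - 1) * κ) [MOD 4 * W ^ 3]) (hj2 : P1 W P0 ∣ j0)
    (hjA : 2 * K * Tm W P0 < 1 + 4 * Tm W P0 * t)
    (hgood : K ≤ Set.ncard {i : ℕ | i < 2 * K ∧
      ¬ Bad P0 (1 + 4 * Tm W P0 * t) (j0 + Tm W P0 * i)})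
    (k : ℕ) (hk : Squarefree k) (hkκ : k ≡ κ [MOD W]) :
    K ≤ {n : ℕ | (1 + 4 * Tm W P0 * t) ^ 4 / (4 * W) ^ 2 < n + (2 * K * Tm W P0) ^ 4 + 1 ∧
      n ≤ (1 + 4 * Tm W P0 * t) ^ 4 / (4 * W) ^ 2 ∧ Squarefree n ∧ n ≡ k [MOD W] ∧
      IsCongruent n}.ncard := by
  set T := Tm W P0 with hT
  set s := 1 + 4 * T * t with hs
  have hTpos : 0 < T := by
    rw [hT]; unfold Tm
    have := P1_pos W P0
    positivity
  have hjle : ∀ i < 2 * K, j0 + T * i ≤ 2 * K * T := by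
    intro i hi
    have h2 : T * i ≤ T * (2 * K - 1) := Nat.mul_le_mul_left _ (by omega)
    have h3 : T + T * (2 * K - 1) = 2 * K * T := by
      obtain ⟨k, hk⟩ : ∃ k, 2 * K = k + 1 := ⟨2 * K - 1, by omega⟩
      rw [hk, Nat.add_sub_cancel]; ring
    omega
  have hex : ∀ i < 2 * K, ∃ n : ℕ, s ^ 4 = (j0 + T * i) ^ 4 + (4 * W) ^ 2 * n ∧ n ≡ κ [MOD W] ∧
      0 < n := by
    intro i hi
    apply nat_quot (z := P1 W P0 * t) (n := 0) (u := 0) hW
    · rw [hs, hT]; unfold Tm; ring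
    · have : T * i ≡ 0 [MOD 4 * W ^ 3] := by
        rw [Nat.modEq_zero_iff_dvd, hT]
        unfold Tm
        exact ⟨P1 W P0 * i, by ring⟩
      have := hj1.add this
      rwa [add_zero] at this
    · have := hjle i hi
      omega
  choose! f hf using hex
  set G : Set ℕ := {i : ℕ | i < 2 * K ∧ ¬ Bad P0 s (j0 + T * i)} with hG
  have hinj : Set.InjOn f G := by
    intro i1 h1 i2 h2 he
    have e1 := (hf i1 h1.1).1
    have e2 := (hf i2 h2.1).1
    rw [he] at e1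
    have e3 : (j0 + T * i1) ^ 4 = (j0 + T * i2) ^ 4 := by omega
    have e4 := Nat.pow_left_injective (show 4 ≠ 0 by norm_num) e3
    have e5 : T * i1 = T * i2 := by
      have : j0 + T * i1 = j0 + T * i2 := e4
      omega
    exact Nat.eq_of_mul_eq_mul_left hTpos e5
  refine hgood.trans ?_
  rw [← Set.InjOn.ncard_image hinj]
  apply Set.ncard_le_ncard
  · rintro _ ⟨i, ⟨hi, hbad⟩, rfl⟩
    obtain ⟨e1, e2, e3⟩ := hf i hi
    have hjl := hjle i hi
    have hm : 0 < (4 * W) ^ 2 := by positivity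
    refine ⟨?_, ?_, ?_, ?_, ?_⟩
    · rw [Nat.div_lt_iff_lt_mul hm, e1]
      have h1 : (j0 + T * i) ^ 4 ≤ (2 * K * T) ^ 4 := Nat.pow_le_pow_left hjl 4
      have h2 : (2 * K * T) ^ 4 + 1 ≤ ((2 * K * T) ^ 4 + 1) * (4 * W) ^ 2 :=
        Nat.le_mul_of_pos_right _ hm
      have h3 : (f i + (2 * K * T) ^ 4 + 1) * (4 * W) ^ 2 =
        (4 * W) ^ 2 * f i + ((2 * K * T) ^ 4 + 1) * (4 * W) ^ 2 := by ring
      rw [h3]
      omega
    · rw [Nat.le_div_iff_mul_le hm, e1, mul_comm]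
      omega
    · apply squarefree_of (W := W) (P0 := P0) (P1 := P1 W P0) (s := s) (j := j0 + T * i) (k := k)
        (κ := κ) hW hW2 hWp hWP (fun p hp h1 h2 => dvd_P1 hp h1 h2) _ _ e1 hk
        (e2.trans hkκ.symm) (fun h => hbad (Or.inl h)) (fun h => hbad (Or.inr h))
      · have : 4 * T * t ≡ 0 [MOD P1 W P0] := by
          rw [Nat.modEq_zero_iff_dvd, hT]
          unfold Tm
          exact ⟨4 * (4 * W ^ 3) * t, by ring⟩
        have h1 : 1 + 4 * T * t ≡ 1 + 0 [MOD P1 W P0] := Nat.ModEq.add_left 1 this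
        rw [hs]
        simpa using h1
      · apply dvd_add hj2
        rw [hT]
        unfold Tm
        exact ⟨4 * W ^ 3 * i, by ring⟩
    · exact e2.trans hkκ.symm
    · exact congruent_of (s := s) (j := j0 + T * i) (m := 4 * W) (by positivity) (by omega)
        (by omega) e1
  · apply (Set.finite_Iic (s ^ 4 / (4 * W) ^ 2)).subset
    intro n hn
    exact hn.2.1

end

end Pool.Agent.T2h88.BW
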