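import Pool.Agent.T2h88.BW.Fin

/-!
# Windows with many squarefree congruent numbers (helper88): the main theorem
-/

set_option autoImplicit false

open Finset Filter

namespace Pool.Agent.T2h88.BW

theorem pi_small {ε : ℝ} (hε : 0 < ε) : ∃ x₀ : ℝ, ∀ x : ℝ, x₀ ≤ x →
    (Nat.primeCounting ⌊x⌋₊ : ℝ) ≤ ε * x := by
  have h1 := Chebyshev.eventually_primeCounting_le (ε := 1) one_pos
  have h2 : ∀ᶠ x : ℝ in atTop, (Real.log 4 + 1) / ε ≤ Real.log x :=
    Real.tendsto_log_atTop.eventually_ge_atTop _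
  obtain ⟨x₀, hx₀⟩ := eventually_atTop.1 (h1.and (h2.and (eventually_ge_atTop 1)))
  refine ⟨x₀, fun x hx => ?_⟩
  obtain ⟨a1, a2, a3⟩ := hx₀ x hx
  refine a1.trans ?_
  have h4 : (0 : ℝ) < Real.log 4 + 1 := by
    have : 0 < Real.log 4 := Real.log_pos (by norm_num)
    linarith
  have h5 : 0 < Real.log x := lt_of_lt_of_le (by positivity) a2
  rw [div_le_iff₀ h5]
  rw [div_le_iff₀ hε] at a2
  nlinarith

open Classical in
theorem main (W : ℕ) (hW : 0 < W) (hW2 : 2 ∣ W)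
    (hWp : ∀ p : ℕ, p.Prime → p ∣ W → p ^ 2 ∣ W) :
    ∃ C : ℕ, ∃ c : ℝ, 0 < c ∧ ∃ X₀ : ℕ, ∀ X : ℕ, X₀ ≤ X → ∀ K : ℕ, 1 ≤ K →
      (K : ℝ) ≤ c * (X : ℝ) ^ (1 / 4 : ℝ) →
      c * (X : ℝ) ^ (1 / 4 : ℝ) ≤ (({N : ℕ | X ≤ N ∧ N ≤ 2 * X ∧ ∀ k : ℕ, Squarefree k →
        K ≤ {n : ℕ | N < n + C * K ^ 4 ∧ n ≤ N ∧ Squarefree n ∧ n ≡ k [MOD W] ∧
          IsCongruent n}.ncard}.ncard : ℕ) : ℝ) := by
  set P0 := 128 * W with hP0
  set T := Tm W P0 with hT
  have hTpos : 0 < T := by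
    rw [hT]; unfold Tm
    have := P1_pos W P0
    positivity
  set K0 := T + 8 * W with hK0
  have hK0pos : 1 ≤ K0 := by omega
  have hWr : (0 : ℝ) < W := by exact_mod_cast hW
  have hTr : (0 : ℝ) < T := by exact_mod_cast hTpos
  have hT1 : (1 : ℝ) ≤ T := by exact_mod_cast hTpos
  have hW1 : (1 : ℝ) ≤ W := by exact_mod_cast hW
  set ε : ℝ := 1 / (12288 * W * T) with hε
  have hεpos : 0 < ε := by positivity
  obtain ⟨x₀, hx₀⟩ := pi_small hεpos
  set R₀ : ℝ := |x₀| + 20 + 92 * T + 64 * T + 1024 * T * W + 256 * T * K0 with hR₀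
  have hR₀pos : 0 < R₀ := by positivity
  refine ⟨(16 * T ^ 4 + 1) * K0 ^ 4, 1 / (256 * T), by positivity, ⌈R₀ ^ 4⌉₊, ?_⟩
  intro X hX K hK hKX
  have hXr : R₀ ^ 4 ≤ X := (Nat.le_ceil _).trans (by exact_mod_cast hX)
  set Z : ℝ := (X : ℝ) ^ (1 / 4 : ℝ) with hZ
  have hZ0 : 0 ≤ Z := by positivity
  have hZ4 : Z ^ 4 = X := by
    rw [hZ, ← Real.rpow_natCast, ← Real.rpow_mul (by positivity)]
    norm_num
  have hZR₀ : R₀ ≤ Z := by
    by_contra h
    have := pow_lt_pow_left₀ (not_le.1 h) hZ0 (n := 4) (by norm_num)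
    rw [hZ4] at this
    linarith
  set q : ℝ := Real.sqrt (4 * W) with hq
  have hq0 : 0 ≤ q := Real.sqrt_nonneg _
  have hq2 : q ^ 2 = 4 * W := Real.sq_sqrt (by positivity)
  have hq1 : 1 ≤ q := by
    by_contra h
    have h1 : q ^ 2 < 1 := by nlinarith [not_le.1 h]
    linarith
  set R : ℝ := q * Z with hR
  have hR4 : R ^ 4 = (4 * W) ^ 2 * X := by
    rw [hR, mul_pow, hZ4, show q ^ 4 = (q ^ 2) ^ 2 by ring, hq2]
  have hRZ : Z ≤ R := by
    rw [hR]
    nlinarith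
  have hRR₀ : R₀ ≤ R := hZR₀.trans hRZ
  have hRx : x₀ ≤ 3 * R := by
    have : x₀ ≤ |x₀| := le_abs_self _
    have h2 : |x₀| ≤ R := by
      refine le_trans ?_ hRR₀
      rw [hR₀]
      have : (0 : ℝ) ≤ 20 + 92 * T + 64 * T + 1024 * T * W + 256 * T * K0 := by positivity
      linarith
    have h3 : 0 ≤ R := hR₀pos.le.trans hRR₀
    linarith
  have hRpos : 0 < R := hR₀pos.trans_le hRR₀
  have hR1 : 20 + 92 * T ≤ R := by
    refine le_trans ?_ hRR₀
    rw [hR₀]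
    have : (0 : ℝ) ≤ |x₀| + 64 * T + 1024 * T * W + 256 * T * K0 := by positivity
    linarith
  have hR2 : 64 * T ≤ R := by
    refine le_trans ?_ hRR₀
    rw [hR₀]
    have : (0 : ℝ) ≤ |x₀| + 20 + 92 * T + 1024 * T * W + 256 * T * K0 := by positivity
    linarith
  have hR3 : 1024 * T * W ≤ R := by
    refine le_trans ?_ hRR₀
    rw [hR₀]
    have : (0 : ℝ) ≤ |x₀| + 20 + 92 * T + 64 * T + 256 * T * K0 := by positivity
    linarith
  have hR5 : 256 * T * K0 ≤ R := by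
    refine le_trans ?_ hRR₀
    rw [hR₀]
    have : (0 : ℝ) ≤ |x₀| + 20 + 92 * T + 64 * T + 1024 * T * W := by positivity
    linarith
  set A : ℕ := ⌊R / (4 * T)⌋₊ + 1 with hA
  have hA1 : R < 4 * T * A := by
    have h1 : R / (4 * T) < (A : ℝ) := by
      rw [hA]; push_cast; exact Nat.lt_floor_add_one _
    rwa [div_lt_iff₀ (by positivity), mul_comm] at h1
  have hA2 : (A : ℝ) ≤ R / (4 * T) + 1 := by
    rw [hA]; push_cast
    have := Nat.floor_le (show 0 ≤ R / (4 * T) by positivity)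
    linarith
  set B : ℕ := A / 8 with hB
  have hB2 : 8 * B ≤ A := Nat.mul_div_le _ _
  have hB3 : A ≤ 8 * B + 7 := by omega
  have hR2' : 1 ≤ R / (64 * T) := by
    rw [le_div_iff₀ (by positivity)]; linarith
  have hB1 : R / (64 * T) ≤ B := by
    have h1 : (A : ℝ) ≤ 8 * B + 7 := by exact_mod_cast hB3
    have h2 : R / (4 * T) < A := by
      rw [div_lt_iff₀ (by positivity)]; linarith
    have h3 : R / (4 * T) = 16 * (R / (64 * T)) := by
      field_simp
      ring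
    linarith
  have hKR' : (K : ℝ) ≤ R / (256 * T) := by
    refine hKX.trans ?_
    rw [div_mul_eq_mul_div, one_mul]
    gcongr
  have hK0R : (K0 : ℝ) ≤ R / (256 * T) := by
    rw [le_div_iff₀ (by positivity)]; linarith
  set K' := max K K0 with hK'
  have hK'R : (K' : ℝ) ≤ R / (256 * T) := by
    rw [hK']; push_cast
    exact max_le hKR' hK0R
  have hs : ∀ t < A + B, ((1 + 4 * T * t : ℕ) : ℝ) ≤ 47 / 40 * R := by
    intro t ht
    have h1 : (t : ℝ) ≤ A + B := by exact_mod_cast ht.le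
    have h2 : (8 : ℝ) * B ≤ A := by exact_mod_cast hB2
    have h3 : 4 * T * A ≤ R + 4 * T := by
      have := mul_le_mul_of_nonneg_left hA2 (show (0 : ℝ) ≤ 4 * T by positivity)
      have e : 4 * (T : ℝ) * (R / (4 * T) + 1) = R + 4 * T := by
        field_simp
      linarith
    push_cast
    have h4 : 4 * (T : ℝ) * t ≤ 4 * T * (A + B) := mul_le_mul_of_nonneg_left h1 (by positivity)
    have h5 : 4 * (T : ℝ) * B ≤ 4 * T * (A / 8) := by
      apply mul_le_mul_of_nonneg_left _ (by positivity)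
      linarith
    have h6 : 4 * (T : ℝ) * (A + B) = 4 * T * A + 4 * T * B := by ring
    have h7 : 4 * (T : ℝ) * (A / 8) = (4 * T * A) / 8 := by ring
    linarith
  have hYb : ∀ t < A + B, 2 * (1 + 4 * T * t) ≤ ⌊3 * R⌋₊ := by
    intro t ht
    apply Nat.le_floor
    have := hs t ht
    push_cast at this ⊢
    linarith
  have hpi : 64 * W * Nat.primeCounting ⌊3 * R⌋₊ ≤ B := by
    have h1 := hx₀ (3 * R) hRx
    have h2 : (64 : ℝ) * W * Nat.primeCounting ⌊3 * R⌋₊ ≤ B := by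
      refine le_trans ?_ hB1
      have h3 := mul_le_mul_of_nonneg_left h1 (show (0 : ℝ) ≤ 64 * W by positivity)
      refine h3.trans (le_of_eq ?_)
      rw [hε]
      field_simp
      ring
    exact_mod_cast h2
  have hKB : 2 * K' ≤ B := by
    have h1 : (2 : ℝ) * K' ≤ B := by
      have h2 : R / (64 * T) = 4 * (R / (256 * T)) := by
        field_simp
        ring
      have h3 : (0 : ℝ) ≤ K' := by positivity
      linarith
    exact_mod_cast h1
  have hBW : 16 * W ≤ B := by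
    have h1 : (16 : ℝ) * W ≤ B := by
      refine le_trans ?_ hB1
      rw [le_div_iff₀ (by positivity)]
      linarith
    exact_mod_cast h1
  have hjA : 2 * K' * T < 1 + 4 * T * A := by
    have h1 : (2 : ℝ) * K' * T < 1 + 4 * T * A := by
      have h2 : (2 : ℝ) * K' * T ≤ 2 * (R / (256 * T)) * T := by gcongr
      have h3 : 2 * (R / (256 * T)) * T = R / 128 := by
        field_simp
        ring
      linarith
    exact_mod_cast h1
  choose j0 hj0 hj0T hj1 hj2 using fun κ => exists_j0 (P0 := P0) hW hW2 κ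
  have hgood := many_good (A := A) (B := B) (K := K') (Y := ⌊3 * R⌋₊) hW hP0 j0 hj0 hj0T
    (by rw [← hT]; omega) (by omega) hKB hBW hpi (by rw [← hT]; exact hYb) (by rw [← hT]; exact hjA)
  rw [← hT] at hgood
  set F := (Ico A (A + B)).filter (fun t => ∀ κ < W,
      K' ≤ ((range (2 * K')).filter (fun i => ¬ Bad P0 (1 + 4 * T * t) (j0 κ + T * i))).card)
    with hF
  have hm : 0 < (4 * W) ^ 2 := by positivity
  have hinj : Set.InjOn (fun t : ℕ => (1 + 4 * T * t) ^ 4 / (4 * W) ^ 2) (F : Set ℕ) := by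
    have hmono : StrictMono (fun t : ℕ => (1 + 4 * T * t) ^ 4 / (4 * W) ^ 2) := by
      apply strictMono_nat_of_lt_succ
      intro t
      show (1 + 4 * T * t) ^ 4 / (4 * W) ^ 2 < (1 + 4 * T * (t + 1)) ^ 4 / (4 * W) ^ 2
      rw [← Nat.succ_le_iff, Nat.succ_eq_add_one, Nat.le_div_iff_mul_le hm, add_mul, one_mul]
      have h1 : (1 + 4 * T * t) ^ 4 / (4 * W) ^ 2 * (4 * W) ^ 2 ≤ (1 + 4 * T * t) ^ 4 :=
        Nat.div_mul_le_self _ _
      have h2 : (4 * W) ^ 2 ≤ 4 * T := by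
        rw [hT]; unfold Tm
        have h3 : 1 ≤ P1 W P0 := P1_pos W P0
        calc (4 * W) ^ 2 = 16 * W ^ 2 * 1 * 1 := by ring
          _ ≤ 16 * W ^ 2 * W * P1 W P0 := Nat.mul_le_mul (Nat.mul_le_mul_left _ hW) h3
          _ = 4 * (4 * W ^ 3 * P1 W P0) := by ring
      set a := 1 + 4 * T * t with ha
      have h4 : 1 + 4 * T * (t + 1) = a + 4 * T := by rw [ha]; ring
      rw [h4]
      have h5 : a ^ 4 + 4 * T ≤ (a + 4 * T) ^ 4 := by
        have h6 : 1 ≤ a := by omega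
        have h7 : 4 * T ≤ 4 * a ^ 3 * (4 * T) := by
          have : 1 ≤ 4 * a ^ 3 := by
            have : 1 ≤ a ^ 3 := Nat.one_le_pow _ _ h6
            omega
          exact Nat.le_mul_of_pos_left _ this
        have h8 : (a + 4 * T) ^ 4 = a ^ 4 + 4 * a ^ 3 * (4 * T) + (6 * a ^ 2 * (4 * T) ^ 2 +
            4 * a * (4 * T) ^ 3 + (4 * T) ^ 4) := by ring
        rw [h8]
        omega
      omega
    exact hmono.injective.injOn
  have hfin : {N : ℕ | X ≤ N ∧ N ≤ 2 * X ∧ ∀ k : ℕ, Squarefree k →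
        K ≤ {n : ℕ | N < n + (16 * T ^ 4 + 1) * K0 ^ 4 * K ^ 4 ∧ n ≤ N ∧ Squarefree n ∧
          n ≡ k [MOD W] ∧ IsCongruent n}.ncard}.Finite :=
    (Set.finite_Iic (2 * X)).subset fun N hN => hN.2.1
  have hsub : (fun t : ℕ => (1 + 4 * T * t) ^ 4 / (4 * W) ^ 2) '' (F : Set ℕ) ⊆
      {N : ℕ | X ≤ N ∧ N ≤ 2 * X ∧ ∀ k : ℕ, Squarefree k →
        K ≤ {n : ℕ | N < n + (16 * T ^ 4 + 1) * K0 ^ 4 * K ^ 4 ∧ n ≤ N ∧ Squarefree n ∧
          n ≡ k [MOD W] ∧ IsCongruent n}.ncard} := by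
    rintro _ ⟨t, ht, rfl⟩
    have ht' := mem_filter.1 (Finset.mem_coe.1 ht)
    have htI := mem_Ico.1 ht'.1
    have hs1 := hs t htI.2
    have hs2 : R ≤ ((1 + 4 * T * t : ℕ) : ℝ) := by
      push_cast
      have h1 : (A : ℝ) ≤ t := by exact_mod_cast htI.1
      have h2 : 4 * (T : ℝ) * A ≤ 4 * T * t := mul_le_mul_of_nonneg_left h1 (by positivity)
      linarith
    refine ⟨?_, ?_, ?_⟩
    · show X ≤ (1 + 4 * T * t) ^ 4 / (4 * W) ^ 2
      rw [Nat.le_div_iff_mul_le hm]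
      have h1 := pow_le_pow_left₀ hRpos.le hs2 4
      rw [hR4] at h1
      have h2 : ((X * (4 * W) ^ 2 : ℕ) : ℝ) ≤ (((1 + 4 * T * t) ^ 4 : ℕ) : ℝ) := by
        push_cast at h1 ⊢
        linarith
      exact_mod_cast h2
    · show (1 + 4 * T * t) ^ 4 / (4 * W) ^ 2 ≤ 2 * X
      apply Nat.div_le_of_le_mul
      have h1 := pow_le_pow_left₀ (by positivity) hs1 4
      have h2 : (47 / 40 * R) ^ 4 ≤ 2 * R ^ 4 := by
        rw [mul_pow]
        apply mul_le_mul_of_nonneg_right _ (by positivity)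
        norm_num
      have h3 : (((1 + 4 * T * t) ^ 4 : ℕ) : ℝ) ≤ (((4 * W) ^ 2 * (2 * X) : ℕ) : ℝ) := by
        push_cast at h1 ⊢
        rw [hR4] at h2
        linarith
      exact_mod_cast h3
    · intro k hk
      have hr := rich (P0 := P0) (K := K') (t := t) hW hW2 hWp (by omega) (j0 (k % W)) (k % W)
        (hj0 _) (hj0T _) (hj1 _) (hj2 _) (by
          rw [← hT]
          have : 4 * T * A ≤ 4 * T * t := Nat.mul_le_mul_left _ htI.1
          omega) (by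
          rw [← hT]
          have h1 := ht'.2 (k % W) (Nat.mod_lt _ hW)
          rw [← Set.ncard_coe_finset] at h1
          refine h1.trans (le_of_eq ?_)
          congr 1
          ext i
          simp) k hk (Nat.mod_modEq _ _).symm
      rw [← hT] at hr
      have hKK' : K ≤ K' := le_max_left _ _
      refine hKK'.trans (hr.trans (Set.ncard_le_ncard ?_ ?_))
      · rintro n ⟨a1, a2⟩
        refine ⟨lt_of_lt_of_le a1 ?_, a2⟩
        have h1 : K' ≤ K0 * K := by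
          rw [hK']
          apply max_le
          · exact Nat.le_mul_of_pos_left _ hK0pos
          · exact Nat.le_mul_of_pos_right _ hK
        have h2 : K' ^ 4 ≤ (K0 * K) ^ 4 := Nat.pow_le_pow_left h1 4
        have h3 : 1 ≤ K' ^ 4 := Nat.one_le_pow _ _ (hK.trans hKK')
        have h4 : (2 * K' * T) ^ 4 + 1 ≤ (16 * T ^ 4 + 1) * K' ^ 4 := by
          have : (2 * K' * T) ^ 4 = 16 * T ^ 4 * K' ^ 4 := by ring
          rw [this, add_mul, one_mul]
          omega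
        have h5 : (16 * T ^ 4 + 1) * K' ^ 4 ≤ (16 * T ^ 4 + 1) * K0 ^ 4 * K ^ 4 := by
          calc (16 * T ^ 4 + 1) * K' ^ 4 ≤ (16 * T ^ 4 + 1) * (K0 * K) ^ 4 :=
                Nat.mul_le_mul_left _ h2
            _ = (16 * T ^ 4 + 1) * K0 ^ 4 * K ^ 4 := by ring
        omega
      · exact (Set.finite_Iic _).subset fun n hn => hn.2.1
  have h1 := Set.ncard_le_ncard hsub hfin
  rw [Set.InjOn.ncard_image hinj, Set.ncard_coe_finset] at h1
  have h2 : (F.card : ℝ) ≤ ({N : ℕ | X ≤ N ∧ N ≤ 2 * X ∧ ∀ k : ℕ, Squarefree k →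
        K ≤ {n : ℕ | N < n + (16 * T ^ 4 + 1) * K0 ^ 4 * K ^ 4 ∧ n ≤ N ∧ Squarefree n ∧
          n ≡ k [MOD W] ∧ IsCongruent n}.ncard}.ncard : ℝ) := by exact_mod_cast h1
  refine le_trans ?_ h2
  refine le_trans ?_ hgood
  have h3 : 1 / (256 * T) * Z ≤ R / (256 * T) := by
    rw [div_mul_eq_mul_div, one_mul]
    gcongr
  have h4 : R / (64 * T) = 4 * (R / (256 * T)) := by
    field_simp
    ring
  have h5 : 0 ≤ R / (256 * T) := by positivity
  linarith

end Pool.Agent.T2h88.BW
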